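import Mathlib
import Pool.Agent.R244.BeamFreq

/-!
# Two oblique observations of a periodic beam: the inverse inequality always holds

For every pair of distinct real numbers `a₁`, `a₂`, neither an integer (in particular for every pair
of distinct non-integer rational numbers), every `(t₁,x₁)`, `(t₂,x₂)` and every `T > 0`, the
two-segment inverse inequality holds.

On the line with speed `a` the mode `(±, k)` has the frequency `±k² - ak`. The main point is that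
there is no cycle: if a finite set `Z` of modes with `k ≠ 0` were closed under passing to the other
mode with the same frequency, on both lines, then the sum of the frequencies over the `+` modes of `Z`
would be equal to the sum over the `-` modes, on both lines; as the speeds differ, subtracting gives
that the sum of `k` over the `+` modes is the sum of `k` over the `-` modes, and then the sum of `k²`
over `Z` is zero, so `Z` is empty. The rest is the theory of nonharmonic Fourier series (Ingham,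
Haraux), proved in the imported files.
-/

set_option autoImplicit false

namespace Pool.Agent.Results.MP_0955de_an.TwoSegments

open MeasureTheory Set Complex

/-- The solution
`u(t,x) = c_0^+ + c_0^- t + ∑_{k ≠ 0} (c_k^+ exp(ik²t) + c_k^- exp(-ik²t)) exp(ikx)` of the beam
equation (used below only for coefficient sequences with finitely many nonzero terms). -/
noncomputable def beam (cp cm : ℤ → ℂ) (t x : ℝ) : ℂ :=
  cp 0 + cm 0 * t + ∑' k : ℤ, if k = 0 then 0 else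
    (cp k * cexp (I * ((k : ℝ) ^ 2 * t : ℝ)) + cm k * cexp (-(I * ((k : ℝ) ^ 2 * t : ℝ)))) *
      cexp (I * ((k : ℝ) * x : ℝ))

open Pool.Agent.R244

/-- the phase of the mode at the starting point -/
noncomputable def ph (t0 x0 : ℝ) (μ : Bool × ℤ) : ℂ :=
  if μ.1 then cexp (I * ((μ.2 : ℝ) ^ 2 * t0 + μ.2 * x0 : ℝ))
  else cexp (I * (-(μ.2 : ℝ) ^ 2 * t0 + μ.2 * x0 : ℝ))

lemma norm_e (r : ℝ) : ‖cexp (I * (r : ℂ))‖ = 1 := by
  rw [mul_comm, Complex.norm_exp_ofReal_mul_I]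

lemma ph_norm (t0 x0 : ℝ) (μ : Bool × ℤ) : ‖ph t0 x0 μ‖ = 1 := by
  unfold ph
  split_ifs
  · exact norm_e _
  · exact norm_e _

/-- the coefficient of the mode -/
noncomputable def cf (cp cm : ℤ → ℂ) (μ : Bool × ℤ) : ℂ := if μ.1 then cp μ.2 else cm μ.2

lemma beam_line (cp cm : ℤ → ℂ) (K : Finset ℤ) (hK : ∀ k ∉ K, k ≠ 0 → cp k = 0 ∧ cm k = 0)
    (hK0 : (0 : ℤ) ∉ K) (t0 x0 a t : ℝ) :
    beam cp cm (t0 + t) (x0 - a * t) = cm 0 * t + (cp 0 + cm 0 * t0) +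
      ∑ μ ∈ (Finset.univ : Finset Bool) ×ˢ K, ph t0 x0 μ * cf cp cm μ *
        cexp (I * (Beam.om a μ * t : ℝ)) := by
  unfold beam
  rw [tsum_eq_sum (s := K)]
  · rw [Finset.sum_product, Fintype.sum_bool, ← Finset.sum_add_distrib]
    have : ∀ k ∈ K, (if k = 0 then 0 else
        (cp k * cexp (I * ((k : ℝ) ^ 2 * (t0 + t) : ℝ)) +
          cm k * cexp (-(I * ((k : ℝ) ^ 2 * (t0 + t) : ℝ)))) *
          cexp (I * ((k : ℝ) * (x0 - a * t) : ℝ))) =
        ph t0 x0 (true, k) * cf cp cm (true, k) * cexp (I * (Beam.om a (true, k) * t : ℝ)) +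
        ph t0 x0 (false, k) * cf cp cm (false, k) * cexp (I * (Beam.om a (false, k) * t : ℝ)) := by
      intro k hk
      have hk0 : k ≠ 0 := by
        rintro rfl
        exact hK0 hk
      rw [if_neg hk0, Beam.om_true, Beam.om_false]
      simp only [ph, cf, if_true]
      have e1 : cexp (I * ((k : ℝ) ^ 2 * (t0 + t) : ℝ)) * cexp (I * ((k : ℝ) * (x0 - a * t) : ℝ)) =
          cexp (I * ((k : ℝ) ^ 2 * t0 + k * x0 : ℝ)) * cexp (I * (((k : ℝ) ^ 2 - a * k) * t : ℝ)) := by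
        rw [← Complex.exp_add, ← Complex.exp_add]
        congr 1
        push_cast
        ring
      have e2 : cexp (-(I * ((k : ℝ) ^ 2 * (t0 + t) : ℝ))) *
          cexp (I * ((k : ℝ) * (x0 - a * t) : ℝ)) =
          cexp (I * (-(k : ℝ) ^ 2 * t0 + k * x0 : ℝ)) *
            cexp (I * ((-(k : ℝ) ^ 2 - a * k) * t : ℝ)) := by
        rw [← Complex.exp_add, ← Complex.exp_add]
        congr 1
        push_cast
        ring
      rw [add_mul, mul_assoc, mul_assoc, e1, e2]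
      simp only [Bool.false_eq_true, if_false]
      ring
    rw [Finset.sum_congr rfl this]
    push_cast
    ring
  · intro k hk
    by_cases hk0 : k = 0
    · rw [if_pos hk0]
    · rw [if_neg hk0, (hK k hk hk0).1, (hK k hk hk0).2]
      simp

/-- **The two-segment inverse inequality holds** for all distinct real `a₁, a₂` which are not integers
(in particular for all distinct non-integer rational numbers), all starting points and all `T > 0`. -/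
theorem result (a₁ a₂ : ℝ) (h₁ : ∀ n : ℤ, (n : ℝ) ≠ a₁) (h₂ : ∀ n : ℤ, (n : ℝ) ≠ a₂)
    (hne : a₁ ≠ a₂) (t₁ x₁ t₂ x₂ T : ℝ) (hT : 0 < T) :
    ∃ C : ℝ, ∀ cp cm : ℤ → ℂ, (Function.support cp).Finite → (Function.support cm).Finite →
      ∑' k : ℤ, (‖cp k‖ ^ 2 + ‖cm k‖ ^ 2) ≤ C * ∫ t in (0 : ℝ)..T,
        (‖beam cp cm (t₁ + t) (x₁ - a₁ * t)‖ ^ 2 + ‖beam cp cm (t₂ + t) (x₂ - a₂ * t)‖ ^ 2) := by
  classical
  obtain ⟨C1, hC1, H1⟩ := Beam.one_line h₁ T hT (ph t₁ x₁)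
  obtain ⟨C2, hC2, H2⟩ := Beam.one_line h₂ T hT (ph t₂ x₂)
  obtain ⟨C3, hC3, H3⟩ := Beam.alg h₁ h₂ hne (ph t₁ x₁) (ph t₂ x₂) (ph_norm t₁ x₁) (ph_norm t₂ x₂)
  refine ⟨(3 + 2 * t₁ ^ 2) * C1 + C3 * (C1 + C2), fun cp cm hp hm => ?_⟩
  set K : Finset ℤ := (hp.toFinset ∪ hm.toFinset).erase 0 with hKdef
  have hK : ∀ k ∉ K, k ≠ 0 → cp k = 0 ∧ cm k = 0 := by
    intro k hk hk0
    rw [hKdef, Finset.mem_erase, Finset.mem_union, Set.Finite.mem_toFinset,
      Set.Finite.mem_toFinset] at hk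
    push Not at hk
    have := hk hk0
    exact ⟨by simpa using this.1, by simpa using this.2⟩
  have hK0 : (0 : ℤ) ∉ K := by simp [hKdef]
  set A : Finset (Bool × ℤ) := (Finset.univ : Finset Bool) ×ˢ K with hA
  have hA0 : ∀ μ ∈ A, μ.2 ≠ 0 := by
    intro μ hμ h0
    rw [hA, Finset.mem_product] at hμ
    exact hK0 (h0 ▸ hμ.2)
  have L1 := H1 A (cf cp cm) (cm 0) (cp 0 + cm 0 * t₁) hA0
  have L2 := H2 A (cf cp cm) (cm 0) (cp 0 + cm 0 * t₂) hA0
  have L3 := H3 A (cf cp cm) hA0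
  have cont : ∀ (t0 x0 a : ℝ), Continuous fun t : ℝ => beam cp cm (t0 + t) (x0 - a * t) := by
    intro t0 x0 a
    simp only [beam_line cp cm K hK hK0 t0 x0 a]
    fun_prop
  have B1 := beam_line cp cm K hK hK0 t₁ x₁ a₁
  have B2 := beam_line cp cm K hK hK0 t₂ x₂ a₂
  rw [← hA] at B1 B2
  simp only [← B1] at L1
  simp only [← B2] at L2
  set J1 : ℝ := ∫ t in (0 : ℝ)..T, ‖beam cp cm (t₁ + t) (x₁ - a₁ * t)‖ ^ 2 with hJ1
  set J2 : ℝ := ∫ t in (0 : ℝ)..T, ‖beam cp cm (t₂ + t) (x₂ - a₂ * t)‖ ^ 2 with hJ2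
  have hJ : ∫ t in (0 : ℝ)..T, (‖beam cp cm (t₁ + t) (x₁ - a₁ * t)‖ ^ 2 +
      ‖beam cp cm (t₂ + t) (x₂ - a₂ * t)‖ ^ 2) = J1 + J2 := by
    rw [hJ1, hJ2]
    apply intervalIntegral.integral_add
    · exact Continuous.intervalIntegrable ((cont t₁ x₁ a₁).norm.pow 2) _ _
    · exact Continuous.intervalIntegrable ((cont t₂ x₂ a₂).norm.pow 2) _ _
  have hJ10 : 0 ≤ J1 := intervalIntegral.integral_nonneg hT.le fun t _ => by positivity
  have hJ20 : 0 ≤ J2 := intervalIntegral.integral_nonneg hT.le fun t _ => by positivity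
  rw [hJ]
  set S1 : ℝ := ∑ w ∈ A.image (Beam.om a₁), ‖Beam.gs a₁ A (ph t₁ x₁) (cf cp cm) w‖ ^ 2 with hS1
  set S2 : ℝ := ∑ w ∈ A.image (Beam.om a₂), ‖Beam.gs a₂ A (ph t₂ x₂) (cf cp cm) w‖ ^ 2 with hS2
  have hS10 : 0 ≤ S1 := Finset.sum_nonneg fun w _ => by positivity
  have hS20 : 0 ≤ S2 := Finset.sum_nonneg fun w _ => by positivity
  have hsum : ∑' k : ℤ, (‖cp k‖ ^ 2 + ‖cm k‖ ^ 2) =
      (‖cp 0‖ ^ 2 + ‖cm 0‖ ^ 2) + ∑ μ ∈ A, ‖cf cp cm μ‖ ^ 2 := by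
    rw [tsum_eq_sum (s := insert 0 K)]
    · rw [Finset.sum_insert hK0, hA, Finset.sum_product, Fintype.sum_bool, ← Finset.sum_add_distrib]
      simp [cf]
    · intro k hk
      rw [Finset.mem_insert] at hk
      push Not at hk
      rw [(hK k hk.2 hk.1).1, (hK k hk.2 hk.1).2]
      simp
  rw [hsum]
  have hb : ‖cm 0‖ ^ 2 ≤ C1 * J1 := by
    have := sq_nonneg ‖cp 0 + cm 0 * (t₁ : ℂ)‖
    linarith
  have hd : ‖cp 0 + cm 0 * (t₁ : ℂ)‖ ^ 2 ≤ C1 * J1 := by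
    have := sq_nonneg ‖cm 0‖
    linarith
  have hS1b : S1 ≤ C1 * J1 := by
    have := sq_nonneg ‖cm 0‖
    have := sq_nonneg ‖cp 0 + cm 0 * (t₁ : ℂ)‖
    linarith
  have hS2b : S2 ≤ C2 * J2 := by
    have := sq_nonneg ‖cm 0‖
    have := sq_nonneg ‖cp 0 + cm 0 * (t₂ : ℂ)‖
    linarith
  have hcp : ‖cp 0‖ ^ 2 ≤ 2 * ‖cp 0 + cm 0 * (t₁ : ℂ)‖ ^ 2 + 2 * (‖cm 0‖ ^ 2 * t₁ ^ 2) := by
    have e1 : cp 0 = (cp 0 + cm 0 * (t₁ : ℂ)) - cm 0 * (t₁ : ℂ) := by ring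
    have e2 := Ing.sq_norm_sub_le (cp 0 + cm 0 * (t₁ : ℂ)) (cm 0 * (t₁ : ℂ))
    rw [← e1, norm_mul, Complex.norm_real, mul_pow, Real.norm_eq_abs, sq_abs] at e2
    exact e2
  have hcp' : ‖cp 0‖ ^ 2 ≤ (2 + 2 * t₁ ^ 2) * (C1 * J1) := by
    have h : ‖cm 0‖ ^ 2 * t₁ ^ 2 ≤ (C1 * J1) * t₁ ^ 2 := by gcongr
    nlinarith
  have hmain : ∑ μ ∈ A, ‖cf cp cm μ‖ ^ 2 ≤ C3 * (C1 * J1 + C2 * J2) := by
    refine L3.trans ?_
    gcongr
  have hfin : C3 * (C1 * J1 + C2 * J2) ≤ C3 * ((C1 + C2) * (J1 + J2)) := by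
    gcongr
    nlinarith [mul_nonneg hC1 hJ20, mul_nonneg hC2 hJ10]
  have hfin2 : (3 + 2 * t₁ ^ 2) * (C1 * J1) ≤ (3 + 2 * t₁ ^ 2) * (C1 * (J1 + J2)) := by
    gcongr
    linarith
  calc ‖cp 0‖ ^ 2 + ‖cm 0‖ ^ 2 + ∑ μ ∈ A, ‖cf cp cm μ‖ ^ 2
      ≤ (2 + 2 * t₁ ^ 2) * (C1 * J1) + C1 * J1 + C3 * (C1 * J1 + C2 * J2) := by
        linarith
    _ = (3 + 2 * t₁ ^ 2) * (C1 * J1) + C3 * (C1 * J1 + C2 * J2) := by ring
    _ ≤ (3 + 2 * t₁ ^ 2) * (C1 * (J1 + J2)) + C3 * ((C1 + C2) * (J1 + J2)) := by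
        linarith
    _ = _ := by ring

end Pool.Agent.Results.MP_0955de_an.TwoSegments
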